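import Mathlib

open Filter Topology

namespace Pool.Agent.Results.MP_55c7a7_lc.FreeSemigroup

/-- Rudin–Keisler preorder on ultrafilters on `ℕ`: `u ≤ v` iff `u = f(v)` for some `f : ℕ → ℕ`. -/
def RK (u v : Ultrafilter ℕ) : Prop := ∃ f : ℕ → ℕ, u = v.map f

/-- Isomorphism of ultrafilters: `u ≤ v ≤ u`. -/
def Iso (u v : Ultrafilter ℕ) : Prop := RK u v ∧ RK v u

/-- Nonprincipal ultrafilters. -/
def NonPrincipal (u : Ultrafilter ℕ) : Prop := ∀ n : ℕ, u ≠ pure n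

/-- Weak P-points: nonprincipal and not in the closure of any countable set of nonprincipal
ultrafilters different from `u`. -/
def WeakP (u : Ultrafilter ℕ) : Prop :=
  NonPrincipal u ∧ ∀ D : Set (Ultrafilter ℕ), D.Countable → (∀ d ∈ D, NonPrincipal d) →
    u ∉ D → u ∉ closure D

/-- Tensor product, transferred to `ℕ` by the pairing bijection `Nat.pair`:
`X ∈ tens u v ↔ {i | {j | pair i j ∈ X} ∈ v} ∈ u` (lemma `mem_tens`). -/
def tens (u v : Ultrafilter ℕ) : Ultrafilter ℕ := u.bind fun i => v.map (Nat.pair i)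

/-- `word a₁ [a₂, …, aₘ] = a₁ ⊗ (a₂ ⊗ (⋯ ⊗ aₘ))`. -/
def word : Ultrafilter ℕ → List (Ultrafilter ℕ) → Ultrafilter ℕ
  | a, [] => a
  | a, b :: l => tens a (word b l)

/-- `A` generates a free semigroup up to isomorphism. -/
def GeneratesFree (A : Set (Ultrafilter ℕ)) : Prop :=
  ∀ (a : Ultrafilter ℕ) (l : List (Ultrafilter ℕ)) (b : Ultrafilter ℕ)
    (m : List (Ultrafilter ℕ)), (∀ x ∈ a :: l, x ∈ A) → (∀ x ∈ b :: m, x ∈ A) →
    Iso (word a l) (word b m) → a :: l = b :: m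

theorem mem_bind_iff (u : Ultrafilter ℕ) (p : ℕ → Ultrafilter ℕ) (s : Set ℕ) :
    s ∈ u.bind p ↔ {i | s ∈ p i} ∈ u := by
  show s ∈ Filter.bind (u : Filter ℕ) (fun x => (p x : Filter ℕ)) ↔ _
  rw [Filter.mem_bind']
  rfl

theorem mem_tens (u v : Ultrafilter ℕ) (X : Set ℕ) :
    X ∈ tens u v ↔ {i | {j | Nat.pair i j ∈ X} ∈ v} ∈ u := by
  unfold tens
  rw [mem_bind_iff]
  rfl

theorem eq_of_forall {u v : Ultrafilter ℕ} (h : ∀ s ∈ u, s ∈ v) : u = v := by
  apply Ultrafilter.ext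
  intro s
  constructor
  · exact h s
  · intro hs
    by_contra hn
    have := h _ (Ultrafilter.compl_mem_iff_notMem.2 hn)
    exact (Ultrafilter.compl_mem_iff_notMem.1 this) hs

theorem inter_nonempty {u : Ultrafilter ℕ} {s t : Set ℕ} (hs : s ∈ u) (ht : t ∈ u) :
    (s ∩ t).Nonempty := Ultrafilter.nonempty_of_mem (Filter.inter_mem hs ht)

/-! ### Fixed point lemma -/

theorem colour_contra {u : Ultrafilter ℕ} {f : ℕ → ℕ} (h : u.map f = u) {T : Set ℕ} (hT : T ∈ u)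
    (c : ℕ → Bool) (hc : ∀ x ∈ T, c (f x) ≠ c x) : False := by
  have key : ∀ s : Set ℕ, s ∈ u ↔ f ⁻¹' s ∈ u := by
    intro s
    conv_lhs => rw [← h]
    exact Ultrafilter.mem_map
  rcases Ultrafilter.mem_or_compl_mem u {x | c x = true} with hs | hs
  · have h2 := (key _).1 hs
    obtain ⟨x, hx⟩ := Ultrafilter.nonempty_of_mem (Filter.inter_mem hT (Filter.inter_mem hs h2))
    apply hc x hx.1
    have h3 : c x = true := hx.2.1
    have h4 : c (f x) = true := hx.2.2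
    rw [h3, h4]
  · have h2 := (key _).1 hs
    obtain ⟨x, hx⟩ := Ultrafilter.nonempty_of_mem (Filter.inter_mem hT (Filter.inter_mem hs h2))
    apply hc x hx.1
    have h3 : ¬ c x = true := hx.2.1
    have h4 : ¬ c (f x) = true := hx.2.2
    rw [Bool.eq_false_iff.2 h3, Bool.eq_false_iff.2 h4]

/-- colouring for the decreasing part -/
noncomputable def colD (f : ℕ → ℕ) (x : ℕ) : Bool :=
  if h : f x < x then !(colD f (f x)) else false
termination_by x

theorem colD_ne (f : ℕ → ℕ) (x : ℕ) (h : f x < x) : colD f (f x) ≠ colD f x := by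
  rw [colD.eq_1 f x, dif_pos h]
  cases colD f (f x) <;> simp

/-- block bounds -/
def bd (f : ℕ → ℕ) : ℕ → ℕ
  | 0 => 0
  | k + 1 => bd f k + 1 + ∑ x ∈ Finset.range (bd f k), f x

theorem bd_lt (f : ℕ → ℕ) (k : ℕ) : bd f k < bd f (k + 1) := by
  simp only [bd]; omega

theorem bd_mono (f : ℕ → ℕ) : StrictMono (bd f) := strictMono_nat_of_lt_succ (bd_lt f)

theorem bd_f (f : ℕ → ℕ) (k x : ℕ) (h : x < bd f k) : f x < bd f (k + 1) := by
  have h2 : f x ≤ ∑ x ∈ Finset.range (bd f k), f x :=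
    Finset.single_le_sum (f := f) (fun _ _ => Nat.zero_le _) (Finset.mem_range.2 h)
  simp only [bd]; omega

theorem ex_bd (f : ℕ → ℕ) (x : ℕ) : ∃ k, x < bd f k := by
  refine ⟨x + 1, ?_⟩
  have := (bd_mono f).id_le (x + 1)
  simp only [id] at this
  omega

/-- block index -/
noncomputable def bi (f : ℕ → ℕ) (x : ℕ) : ℕ := by
  classical exact Nat.find (ex_bd f x)

theorem bi_spec (f : ℕ → ℕ) (x : ℕ) : x < bd f (bi f x) := by
  classical
  unfold bi
  exact Nat.find_spec (ex_bd f x)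

theorem bi_le (f : ℕ → ℕ) {x k : ℕ} (h : x < bd f k) : bi f x ≤ k := by
  classical
  unfold bi
  exact Nat.find_min' (ex_bd f x) h

/-- colouring inside blocks -/
noncomputable def colU (f : ℕ → ℕ) (x : ℕ) : Bool :=
  if h : x < f x ∧ bi f (f x) = bi f x then !(colU f (f x)) else false
termination_by bd f (bi f x) - x
decreasing_by
  have h1 := bi_spec f x
  rw [h.2]
  omega

theorem colU_ne (f : ℕ → ℕ) (x : ℕ) (h : x < f x ∧ bi f (f x) = bi f x) :
    colU f (f x) ≠ colU f x := by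
  rw [colU.eq_1 f x, dif_pos h]
  cases colU f (f x) <;> simp

theorem fix_mem {u : Ultrafilter ℕ} {f : ℕ → ℕ} (h : u.map f = u) : {x | f x = x} ∈ u := by
  by_contra hn
  have h1 : {x | f x < x} ∪ {x | x < f x} ∈ u := by
    filter_upwards [Ultrafilter.compl_mem_iff_notMem.2 hn] with x hx
    have : f x ≠ x := hx
    rcases lt_or_gt_of_ne this with h | h
    · exact Or.inl h
    · exact Or.inr h
  rcases Ultrafilter.union_mem_iff.1 h1 with h2 | h2
  · exact colour_contra h h2 (colD f) (fun x hx => colD_ne f x hx)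
  · have h3 : {x | x < f x ∧ bi f (f x) = bi f x} ∪ {x | bi f (f x) = bi f x + 1} ∈ u := by
      filter_upwards [h2] with x hx
      have hx' : x < f x := hx
      have ha : bi f x ≤ bi f (f x) := bi_le f (lt_trans hx' (bi_spec f (f x)))
      have hb : bi f (f x) ≤ bi f x + 1 := bi_le f (bd_f f _ _ (bi_spec f x))
      by_cases hc : bi f (f x) = bi f x
      · exact Or.inl ⟨hx', hc⟩
      · right
        show bi f (f x) = bi f x + 1
        omega
    rcases Ultrafilter.union_mem_iff.1 h3 with h4 | h4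
    · exact colour_contra h h4 (colU f) (fun x hx => colU_ne f x hx)
    · refine colour_contra h h4 (fun x => decide (Even (bi f x))) (fun x hx => ?_)
      have hx' : bi f (f x) = bi f x + 1 := hx
      simp only [hx', Nat.even_add_one]
      intro hcon
      by_cases he : Even (bi f x) <;> simp [he] at hcon

/-! ### Rudin–Keisler preliminaries -/

theorem RK.refl (u : Ultrafilter ℕ) : RK u u := ⟨id, by simp⟩

theorem RK.trans {u v w : Ultrafilter ℕ} (h1 : RK u v) (h2 : RK v w) : RK u w := by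
  obtain ⟨f, rfl⟩ := h1
  obtain ⟨g, rfl⟩ := h2
  exact ⟨f ∘ g, by rw [Ultrafilter.map_map]⟩

theorem Iso.symm {u v : Ultrafilter ℕ} (h : Iso u v) : Iso v u := ⟨h.2, h.1⟩

theorem Iso.trans {u v w : Ultrafilter ℕ} (h1 : Iso u v) (h2 : Iso v w) : Iso u w :=
  ⟨h1.1.trans h2.1, h2.2.trans h1.2⟩

theorem map_congr_mem {u : Ultrafilter ℕ} {f g : ℕ → ℕ} {B : Set ℕ} (hB : B ∈ u)
    (h : ∀ x ∈ B, f x = g x) : u.map f = u.map g := by
  apply eq_of_forall
  intro s hs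
  rw [Ultrafilter.mem_map] at hs ⊢
  filter_upwards [hs, hB] with x hx hxB
  show g x ∈ s
  rw [← h x hxB]
  exact hx

theorem iso_map_of_injOn {u : Ultrafilter ℕ} {f : ℕ → ℕ} {B : Set ℕ} (hB : B ∈ u)
    (h : Set.InjOn f B) : Iso (u.map f) u := by
  refine ⟨⟨f, rfl⟩, ⟨Function.invFunOn f B, ?_⟩⟩
  rw [Ultrafilter.map_map]
  have : u.map (Function.invFunOn f B ∘ f) = u.map id := by
    apply map_congr_mem hB
    intro x hx
    exact h.leftInvOn_invFunOn hx
  rw [this, Ultrafilter.map_id]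

theorem iso_injOn {u v : Ultrafilter ℕ} (h : Iso u v) :
    ∃ f : ℕ → ℕ, u = v.map f ∧ ∃ B ∈ v, Set.InjOn f B := by
  obtain ⟨⟨f, hf⟩, ⟨g, hg⟩⟩ := h
  refine ⟨f, hf, {x | (g ∘ f) x = x}, ?_, ?_⟩
  · apply fix_mem
    rw [← Ultrafilter.map_map, ← hf, ← hg]
  · intro x hx y hy hxy
    have h1 : g (f x) = x := hx
    have h2 : g (f y) = y := hy
    rw [← h1, ← h2, hxy]

theorem singleton_not_mem {a : Ultrafilter ℕ} (ha : NonPrincipal a) (i : ℕ) : {i} ∉ a := by
  intro h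
  apply ha i
  symm
  apply eq_of_forall
  intro s hs
  have : i ∈ s := hs
  exact Filter.mem_of_superset h (by simpa using this)

/-! ### The key lemma -/

section Key

variable {a b : Ultrafilter ℕ} {p q : ℕ → Ultrafilter ℕ} {γ δ : ℕ → ℕ} {I J : Set ℕ}

theorem eq_index {q : ℕ → Ultrafilter ℕ} {δ : ℕ → ℕ} {J : Set ℕ}
    (hδ : ∀ j ∈ J, δ ⁻¹' {j} ∈ q j) {j : ℕ} (hj : j ∈ J) {Z : Set ℕ} (h : δ ⁻¹' Z ∈ q j) :
    j ∈ Z := by
  obtain ⟨x, hx1, hx2⟩ := inter_nonempty (hδ j hj) h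
  have h1 : δ x = j := hx1
  have h2 : δ x ∈ Z := hx2
  rwa [h1] at h2

theorem subA (ha : NonPrincipal a) (hb : WeakP b)
    (hI : I ∈ a) (hJ : J ∈ b) (hγ : ∀ i ∈ I, γ ⁻¹' {i} ∈ p i) (hδ : ∀ j ∈ J, δ ⁻¹' {j} ∈ q j)
    (H : ∀ A : Set ℕ, {i | A ∈ p i} ∈ a ↔ {j | A ∈ q j} ∈ b)
    (h2 : {i | i ∈ I ∧ (∀ A ∈ p i, ∃ j ∈ J, A ∈ q j) ∧ ¬ ∃ j ∈ J, p i = q j} ∈ a) : False := by
  set I2 := {i | i ∈ I ∧ (∀ A ∈ p i, ∃ j ∈ J, A ∈ q j) ∧ ¬ ∃ j ∈ J, p i = q j} with hI2
  have hnp : ∀ i ∈ I2, NonPrincipal ((p i).map δ) := by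
    rintro i ⟨hi, hcl, hne⟩ j0 hj0
    have h0 : δ ⁻¹' {j0} ∈ p i := by
      rw [← Ultrafilter.mem_map, hj0]
      exact rfl
    have key : ∀ A ∈ p i, j0 ∈ J ∧ A ∈ q j0 := by
      intro A hA
      obtain ⟨j, hj, hAj⟩ := hcl _ (Filter.inter_mem hA h0)
      have h3 : j ∈ ({j0} : Set ℕ) :=
        eq_index hδ hj (Filter.mem_of_superset hAj Set.inter_subset_right)
      have h4 : j = j0 := h3
      subst h4
      exact ⟨hj, Filter.mem_of_superset hAj Set.inter_subset_left⟩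
    exact hne ⟨j0, (key _ h0).1, eq_of_forall (fun A hA => (key A hA).2)⟩
  set D : Set (Ultrafilter ℕ) := {r | ∃ i ∈ I2, r = (p i).map δ ∧ r ≠ b} with hD
  have hDc : D.Countable := by
    apply Set.Countable.mono (s₂ := Set.range (fun i : ℕ => (p i).map δ))
    · rintro r ⟨i, _, hr, _⟩
      exact ⟨i, hr.symm⟩
    · exact Set.countable_range _
  have hcl := hb.2 D hDc (by rintro r ⟨i, hi, rfl, _⟩; exact hnp i hi)
    (by rintro ⟨i, _, _, h⟩; exact h rfl)
  obtain ⟨E, hE, hED⟩ : ∃ E ∈ b, ∀ r ∈ D, E ∉ r := by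
    by_contra hcon
    push Not at hcon
    apply hcl
    rw [ultrafilterBasis_is_basis.mem_closure_iff]
    rintro _ ⟨E, rfl⟩ hE
    obtain ⟨r, hr, hEr⟩ := hcon E hE
    exact ⟨r, hEr, hr⟩
  have hE1 : {i | δ ⁻¹' E ∈ p i} ∈ a := by
    rw [H]
    filter_upwards [hJ, hE] with j hj hjE
    exact Filter.mem_of_superset (hδ j hj) (fun x hx => by
      have : δ x = j := hx
      show δ x ∈ E
      rwa [this])
  obtain ⟨i, hi2, hiE⟩ := inter_nonempty h2 hE1
  have hr : (p i).map δ = b := by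
    by_contra hne
    exact hED _ ⟨i, hi2, rfl, hne⟩ hiE
  have hlim : ∀ A : Set ℕ, {j | A ∈ q j} ∈ b → A ∈ p i := by
    intro A hA
    by_contra hn
    have hn' := Ultrafilter.compl_mem_iff_notMem.2 hn
    have hZ : δ ⁻¹' ({j | A ∈ q j} ∩ J) ∈ p i := by
      rw [← Ultrafilter.mem_map, hr]
      exact Filter.inter_mem hA hJ
    obtain ⟨j, hj, hAj⟩ := hi2.2.1 _ (Filter.inter_mem hn' hZ)
    have h3 : j ∈ {j | A ∈ q j} ∩ J :=
      eq_index hδ hj (Filter.mem_of_superset hAj Set.inter_subset_right)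
    have h4 : A ∈ q j := h3.1
    have h5 : Aᶜ ∈ q j := Filter.mem_of_superset hAj Set.inter_subset_left
    exact (Ultrafilter.compl_mem_iff_notMem.1 h5) h4
  have h6 : {j | γ ⁻¹' {i} ∈ q j} ∈ b := by
    by_contra hn
    have h7 := Ultrafilter.compl_mem_iff_notMem.2 hn
    have h8 : {j | (γ ⁻¹' {i})ᶜ ∈ q j} ∈ b := by
      filter_upwards [h7] with j hj
      exact Ultrafilter.compl_mem_iff_notMem.2 hj
    have h9 := hlim _ h8
    exact (Ultrafilter.compl_mem_iff_notMem.1 h9) (hγ i hi2.1)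
  rw [← H] at h6
  apply singleton_not_mem ha i
  filter_upwards [h6, hI] with i' h6' hi'
  have h10 : i' ∈ ({i} : Set ℕ) := eq_index hγ hi' h6'
  exact h10

theorem subB
    (H : ∀ A : Set ℕ, {i | A ∈ p i} ∈ a ↔ {j | A ∈ q j} ∈ b)
    (h2 : {i | i ∈ I ∧ ¬ (∀ A ∈ p i, ∃ j ∈ J, A ∈ q j)} ∈ a)
    (h3 : {j | j ∈ J ∧ ¬ (∀ A ∈ q j, ∃ i ∈ I, A ∈ p i)} ∈ b) : False := by
  set I3 := {i | i ∈ I ∧ ¬ (∀ A ∈ p i, ∃ j ∈ J, A ∈ q j)} with hI3
  set J3 := {j | j ∈ J ∧ ¬ (∀ A ∈ q j, ∃ i ∈ I, A ∈ p i)} with hJ3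
  have hA : ∀ i : ℕ, ∃ A : Set ℕ, i ∈ I3 → A ∈ p i ∧ ∀ j ∈ J, A ∉ q j := by
    intro i
    by_cases hi : i ∈ I3
    · have := hi.2
      push Not at this
      obtain ⟨A, hA, hAj⟩ := this
      exact ⟨A, fun _ => ⟨hA, hAj⟩⟩
    · exact ⟨∅, fun h => absurd h hi⟩
  choose A hA using hA
  have hB : ∀ j : ℕ, ∃ B : Set ℕ, j ∈ J3 → B ∈ q j ∧ ∀ i ∈ I, B ∉ p i := by
    intro j
    by_cases hj : j ∈ J3
    · have := hj.2
      push Not at this
      obtain ⟨B, hB, hBi⟩ := this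
      exact ⟨B, fun _ => ⟨hB, hBi⟩⟩
    · exact ⟨∅, fun h => absurd h hj⟩
  choose B hB using hB
  set U : Set ℕ := {x | ∃ i ∈ I3, x ∈ A i ∧ ∀ j ≤ i, j ∈ J3 → x ∉ B j} with hU
  set V : Set ℕ := {x | ∃ j ∈ J3, x ∈ B j ∧ ∀ i ≤ j, i ∈ I3 → x ∉ A i} with hV
  have hUp : ∀ i ∈ I3, U ∈ p i := by
    intro i hi
    have hfin : (⋂ j ∈ Finset.range (i + 1), {x | j ∈ J3 → x ∉ B j}) ∈ p i := by
      apply (Filter.biInter_finset_mem _).2
      intro j _
      by_cases hj : j ∈ J3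
      · filter_upwards [Ultrafilter.compl_mem_iff_notMem.2 ((hB j hj).2 i hi.1)] with x hx _
        exact hx
      · exact Filter.mem_of_superset Filter.univ_mem (fun x _ h => absurd h hj)
    filter_upwards [(hA i hi).1, hfin] with x hx hx2
    refine ⟨i, hi, hx, fun j hj => ?_⟩
    have := Set.mem_iInter₂.1 hx2 j (Finset.mem_range.2 (by omega))
    exact this
  have hVq : ∀ j ∈ J3, V ∈ q j := by
    intro j hj
    have hfin : (⋂ i ∈ Finset.range (j + 1), {x | i ∈ I3 → x ∉ A i}) ∈ q j := by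
      apply (Filter.biInter_finset_mem _).2
      intro i _
      by_cases hi : i ∈ I3
      · filter_upwards [Ultrafilter.compl_mem_iff_notMem.2 ((hA i hi).2 j hj.1)] with x hx _
        exact hx
      · exact Filter.mem_of_superset Filter.univ_mem (fun x _ h => absurd h hi)
    filter_upwards [(hB j hj).1, hfin] with x hx hx2
    refine ⟨j, hj, hx, fun i hi => ?_⟩
    have := Set.mem_iInter₂.1 hx2 i (Finset.mem_range.2 (by omega))
    exact this
  have hUa : {i | U ∈ p i} ∈ a := by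
    filter_upwards [h2] with i hi
    exact hUp i hi
  rw [H] at hUa
  obtain ⟨j, hj1, hj2⟩ := inter_nonempty hUa h3
  obtain ⟨x, hx1, hx2⟩ := inter_nonempty hj1 (hVq j hj2)
  obtain ⟨i, hi, hxi, hxi2⟩ := hx1
  obtain ⟨j', hj', hxj, hxj2⟩ := hx2
  rcases le_total i j' with h | h
  · exact hxj2 i h hi hxi
  · exact hxi2 j' h hj' hxj

theorem subC (hγ : ∀ i ∈ I, γ ⁻¹' {i} ∈ p i)
    (H : ∀ A : Set ℕ, {i | A ∈ p i} ∈ a ↔ {j | A ∈ q j} ∈ b)
    (h2 : {i | i ∈ I ∧ ¬ (∀ A ∈ p i, ∃ j ∈ J, A ∈ q j)} ∈ a)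
    (h3 : {j | j ∈ J ∧ ∃ i ∈ I, q j = p i} ∈ b) : False := by
  have h4 : {i | γ ⁻¹' {i | i ∈ I ∧ ¬ (∀ A ∈ p i, ∃ j ∈ J, A ∈ q j)} ∈ p i} ∈ a := by
    filter_upwards [h2] with i hi
    filter_upwards [hγ i hi.1] with x hx
    have h5 : γ x = i := hx
    rw [← h5] at hi
    exact hi
  rw [H] at h4
  obtain ⟨j, hj1, hj2, i, hi, hji⟩ := inter_nonempty h4 h3
  have hj1' : γ ⁻¹' {i | i ∈ I ∧ ¬ (∀ A ∈ p i, ∃ j ∈ J, A ∈ q j)} ∈ q j := hj1
  rw [hji] at hj1'
  have h5 := eq_index hγ hi hj1'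
  apply h5.2
  intro A hA
  exact ⟨j, hj2, by rw [hji]; exact hA⟩

theorem key (ha : WeakP a) (hb : WeakP b)
    (hI : I ∈ a) (hJ : J ∈ b) (hγ : ∀ i ∈ I, γ ⁻¹' {i} ∈ p i) (hδ : ∀ j ∈ J, δ ⁻¹' {j} ∈ q j)
    (H : ∀ A : Set ℕ, {i | A ∈ p i} ∈ a ↔ {j | A ∈ q j} ∈ b) :
    RK b a ∧ {i | i ∈ I ∧ ∃ j ∈ J, p i = q j} ∈ a := by
  have hI1 : {i | i ∈ I ∧ ∃ j ∈ J, p i = q j} ∈ a := by
    have hI2 := fun h => subA ha.1 hb hI hJ hγ hδ H h
    have hJ2 := fun h => subA hb.1 ha hJ hI hδ hγ (fun A => (H A).symm) h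
    have hI3 : {i | i ∈ I ∧ ¬ (∀ A ∈ p i, ∃ j ∈ J, A ∈ q j)} ∉ a := by
      intro h3
      have hJu : {j | j ∈ J ∧ ∃ i ∈ I, q j = p i} ∪
          ({j | j ∈ J ∧ (∀ A ∈ q j, ∃ i ∈ I, A ∈ p i) ∧ ¬ ∃ i ∈ I, q j = p i} ∪
          {j | j ∈ J ∧ ¬ (∀ A ∈ q j, ∃ i ∈ I, A ∈ p i)}) ∈ b := by
        filter_upwards [hJ] with j hj
        by_cases h1 : ∃ i ∈ I, q j = p i
        · exact Or.inl ⟨hj, h1⟩
        · by_cases h2 : ∀ A ∈ q j, ∃ i ∈ I, A ∈ p i
          · exact Or.inr (Or.inl ⟨hj, h2, h1⟩)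
          · exact Or.inr (Or.inr ⟨hj, h2⟩)
      rcases Ultrafilter.union_mem_iff.1 hJu with h4 | h4
      · exact subC hγ H h3 h4
      · rcases Ultrafilter.union_mem_iff.1 h4 with h5 | h5
        · exact hJ2 h5
        · exact subB H h3 h5
    have hIu : {i | i ∈ I ∧ ∃ j ∈ J, p i = q j} ∪
          ({i | i ∈ I ∧ (∀ A ∈ p i, ∃ j ∈ J, A ∈ q j) ∧ ¬ ∃ j ∈ J, p i = q j} ∪
          {i | i ∈ I ∧ ¬ (∀ A ∈ p i, ∃ j ∈ J, A ∈ q j)}) ∈ a := by
      filter_upwards [hI] with i hi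
      by_cases h1 : ∃ j ∈ J, p i = q j
      · exact Or.inl ⟨hi, h1⟩
      · by_cases h2 : ∀ A ∈ p i, ∃ j ∈ J, A ∈ q j
        · exact Or.inr (Or.inl ⟨hi, h2, h1⟩)
        · exact Or.inr (Or.inr ⟨hi, h2⟩)
    rcases Ultrafilter.union_mem_iff.1 hIu with h4 | h4
    · exact h4
    · rcases Ultrafilter.union_mem_iff.1 h4 with h5 | h5
      · exact absurd h5 hI2
      · exact absurd h5 hI3
  refine ⟨?_, hI1⟩
  have hg : ∀ i : ℕ, ∃ j : ℕ, (i ∈ I ∧ ∃ j ∈ J, p i = q j) → j ∈ J ∧ p i = q j := by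
    intro i
    by_cases h : i ∈ I ∧ ∃ j ∈ J, p i = q j
    · obtain ⟨j, hj, hpq⟩ := h.2
      exact ⟨j, fun _ => ⟨hj, hpq⟩⟩
    · exact ⟨0, fun h' => absurd h' h⟩
  choose g hg using hg
  refine ⟨g, eq_of_forall (fun E hE => ?_)⟩
  rw [Ultrafilter.mem_map]
  have h1 : {i | δ ⁻¹' E ∈ p i} ∈ a := by
    rw [H]
    filter_upwards [hJ, hE] with j hj hjE
    exact Filter.mem_of_superset (hδ j hj) (fun x hx => by
      have : δ x = j := hx
      show δ x ∈ E
      rwa [this])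
  filter_upwards [h1, hI1] with i hi1 hi2
  obtain ⟨hj, hpq⟩ := hg i hi2
  have h3 : δ ⁻¹' E ∈ p i := hi1
  rw [hpq] at h3
  exact eq_index hδ hj h3

end Key

/-! ### Words -/

/-- fibres of a word -/
def tail : List (Ultrafilter ℕ) → ℕ → Ultrafilter ℕ
  | [], i => pure i
  | c :: l, i => (word c l).map (Nat.pair i)

/-- projection to the first coordinate -/
def proj : List (Ultrafilter ℕ) → ℕ → ℕ
  | [], x => x
  | _ :: _, x => (Nat.unpair x).1

theorem proj_mem (l : List (Ultrafilter ℕ)) (i : ℕ) : proj l ⁻¹' {i} ∈ tail l i := by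
  cases l with
  | nil => exact (rfl : i = i)
  | cons c l =>
    show _ ∈ (word c l).map (Nat.pair i)
    rw [Ultrafilter.mem_map]
    refine Filter.mem_of_superset Filter.univ_mem (fun x _ => ?_)
    show (Nat.unpair (Nat.pair i x)).1 = i
    rw [Nat.unpair_pair]

theorem word_eq (a : Ultrafilter ℕ) (l : List (Ultrafilter ℕ)) : word a l = a.bind (tail l) := by
  cases l with
  | nil =>
    apply eq_of_forall
    intro s hs
    rw [mem_bind_iff]
    exact hs
  | cons c l => rfl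

theorem word_nonprincipal {a : Ultrafilter ℕ} (ha : NonPrincipal a)
    (l : List (Ultrafilter ℕ)) : NonPrincipal (word a l) := by
  intro n hn
  apply ha (proj l n)
  symm
  apply eq_of_forall
  intro s hs
  have h1 : proj l ⁻¹' s ∈ word a l := by
    rw [hn]
    exact hs
  rw [word_eq, mem_bind_iff] at h1
  filter_upwards [h1] with i hi
  exact eq_index (q := tail l) (J := Set.univ) (fun j _ => proj_mem l j) (Set.mem_univ i) hi

theorem iso_pair (W : Ultrafilter ℕ) (i : ℕ) : Iso (W.map (Nat.pair i)) W :=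
  iso_map_of_injOn (B := Set.univ) Filter.univ_mem (fun x _ y _ h => by
    have := (Nat.pair_eq_pair.1 h).2
    exact this)

theorem principal_of_RK {u : Ultrafilter ℕ} {n : ℕ} (h : RK u (pure n)) : ∃ m, u = pure m := by
  obtain ⟨f, rfl⟩ := h
  exact ⟨f n, by simp⟩

theorem step {a b : Ultrafilter ℕ} (ha : WeakP a) (hb : WeakP b)
    {l m : List (Ultrafilter ℕ)} (h : Iso (word a l) (word b m)) :
    Iso a b ∧ ∃ i j, Iso (tail l i) (tail m j) := by
  obtain ⟨f, hf, B, hB, hinj⟩ := iso_injOn h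
  have hJ : {j | B ∈ tail m j} ∈ b := by
    rw [word_eq, mem_bind_iff] at hB
    exact hB
  have hδ : ∀ j ∈ {j | B ∈ tail m j},
      (proj m ∘ Function.invFunOn f B) ⁻¹' {j} ∈ (tail m j).map f := by
    intro j hj
    have hj' : B ∈ tail m j := hj
    rw [Ultrafilter.mem_map]
    filter_upwards [hj', proj_mem m j] with x hx hx2
    show proj m (Function.invFunOn f B (f x)) = j
    rw [hinj.leftInvOn_invFunOn hx]
    exact hx2
  have H : ∀ A : Set ℕ, {i | A ∈ tail l i} ∈ a ↔ {j | A ∈ (tail m j).map f} ∈ b := by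
    intro A
    rw [← mem_bind_iff, ← word_eq, hf, Ultrafilter.mem_map, word_eq, mem_bind_iff]
    rfl
  have hγ : ∀ i ∈ (Set.univ : Set ℕ), proj l ⁻¹' {i} ∈ tail l i := fun i _ => proj_mem l i
  have k1 := key ha hb Filter.univ_mem hJ hγ hδ H
  have k2 := key hb ha hJ Filter.univ_mem hδ hγ (fun A => (H A).symm)
  refine ⟨⟨k2.1, k1.1⟩, ?_⟩
  obtain ⟨i, -, j, hj, hij⟩ := Ultrafilter.nonempty_of_mem k1.2
  refine ⟨i, j, ?_⟩
  rw [hij]
  exact iso_map_of_injOn hj hinj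

theorem main (A : Set (Ultrafilter ℕ)) (hA : ∀ u ∈ A, WeakP u)
    (hinc : ∀ u ∈ A, ∀ v ∈ A, Iso u v → u = v) : GeneratesFree A := by
  intro a l
  induction l generalizing a with
  | nil =>
    intro b m hal hbm h
    obtain ⟨hab, i, j, hij⟩ := step (hA a (hal a (by simp))) (hA b (hbm b (by simp))) h
    have e := hinc a (hal a (by simp)) b (hbm b (by simp)) hab
    subst e
    cases m with
    | nil => rfl
    | cons c m =>
      exfalso
      have h1 : RK ((word c m).map (Nat.pair j)) (pure i) := hij.2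
      have h2 : RK (word c m) (pure i) := (iso_pair (word c m) j).2.trans h1
      obtain ⟨n, hn⟩ := principal_of_RK h2
      exact word_nonprincipal (hA c (hbm c (by simp))).1 m n hn
  | cons c l ih =>
    intro b m hal hbm h
    obtain ⟨hab, i, j, hij⟩ := step (hA a (hal a (by simp))) (hA b (hbm b (by simp))) h
    have e := hinc a (hal a (by simp)) b (hbm b (by simp)) hab
    subst e
    cases m with
    | nil =>
      exfalso
      have h1 : RK ((word c l).map (Nat.pair i)) (pure j) := hij.1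
      have h2 : RK (word c l) (pure j) := (iso_pair (word c l) i).2.trans h1
      obtain ⟨n, hn⟩ := principal_of_RK h2
      exact word_nonprincipal (hA c (hal c (by simp))).1 l n hn
    | cons d m =>
      have h1 : Iso (word c l) (word d m) :=
        (iso_pair (word c l) i).symm.trans (Iso.trans hij (iso_pair (word d m) j))
      have h2 := ih c d m (fun x hx => hal x (List.mem_cons_of_mem _ hx))
        (fun x hx => hbm x (List.mem_cons_of_mem _ hx)) h1
      rw [h2]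

/-- **Q1 answered positively.** Every set `A` of pairwise Rudin–Keisler incomparable weak P-points
generates a free semigroup up to isomorphism under the tensor product; it is even enough that the
elements of `A` are pairwise non-isomorphic. -/
theorem result :
    (∀ A : Set (Ultrafilter ℕ), (∀ u ∈ A, WeakP u) → (A.Pairwise fun u v => ¬ RK u v) →
      GeneratesFree A) ∧
    (∀ A : Set (Ultrafilter ℕ), (∀ u ∈ A, WeakP u) → (A.Pairwise fun u v => ¬ Iso u v) →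
      GeneratesFree A) := by
  constructor
  · intro A hA hinc
    refine main A hA (fun u hu v hv h => ?_)
    by_contra hne
    exact hinc hu hv hne h.1
  · intro A hA hinc
    refine main A hA (fun u hu v hv h => ?_)
    by_contra hne
    exact hinc hu hv hne h

end Pool.Agent.Results.MP_55c7a7_lc.FreeSemigroup
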